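import Mathlib

/-!
For every integer `b ≥ 2` and every `α ∈ (0,1)` there are finitely many `1`-periodic Lipschitz
functions whose Weierstrass embedding of the circle is `α`-bi-Hölder.
-/

namespace Pool.Agent.Results.MP_0a5dd0_an.BiHolderEmbedding

/-- The Weierstrass-type function `W_g(x) = ∑_{k ≥ 0} b^{-αk} g(b^k x)`. -/
noncomputable def W (b : ℕ) (α : ℝ) (g : ℝ → ℝ) (x : ℝ) : ℝ :=
  ∑' k : ℕ, (b : ℝ) ^ (-(α * (k : ℝ))) * g ((b : ℝ) ^ k * x)

/-- The Weierstrass embedding `x ↦ (W_{g_1}(x), …, W_{g_m}(x))`, with values in Euclidean space. -/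
noncomputable def Phi (b : ℕ) (α : ℝ) {m : ℕ} (g : Fin m → ℝ → ℝ) (x : ℝ) :
    EuclideanSpace ℝ (Fin m) :=
  WithLp.toLp 2 (fun i => W b α (g i) x)

/-! ### Basic facts on the weights -/

lemma beta_pow {b : ℕ} {α : ℝ} (k : ℕ) :
    (b : ℝ) ^ (-(α * (k : ℝ))) = ((b : ℝ) ^ (-α)) ^ k := by
  have hb : (0 : ℝ) ≤ b := Nat.cast_nonneg b
  rw [← Real.rpow_natCast ((b : ℝ) ^ (-α)) k, ← Real.rpow_mul hb]
  congr 1
  ring

lemma beta_pos {b : ℕ} (hb : 2 ≤ b) (α : ℝ) : 0 < (b : ℝ) ^ (-α) := by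
  apply Real.rpow_pos_of_pos
  have : (2 : ℝ) ≤ b := by exact_mod_cast hb
  linarith

lemma beta_lt_one {b : ℕ} (hb : 2 ≤ b) {α : ℝ} (h0 : 0 < α) : (b : ℝ) ^ (-α) < 1 := by
  apply Real.rpow_lt_one_of_one_lt_of_neg
  · have : (2 : ℝ) ≤ b := by exact_mod_cast hb
    linarith
  · linarith

lemma q_gt_one {b : ℕ} (hb : 2 ≤ b) {α : ℝ} (h1 : α < 1) : 1 < (b : ℝ) * (b : ℝ) ^ (-α) := by
  have hb' : (2 : ℝ) ≤ b := by exact_mod_cast hb
  have : (b : ℝ) * (b : ℝ) ^ (-α) = (b : ℝ) ^ (1 - α) := by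
    rw [sub_eq_add_neg, Real.rpow_add (by linarith), Real.rpow_one]
  rw [this]
  apply Real.one_lt_rpow
  · linarith
  · linarith

/-- summability of the series for bounded `g` -/
lemma summable_W {b : ℕ} (hb : 2 ≤ b) {α : ℝ} (h0 : 0 < α) {g : ℝ → ℝ} {B : ℝ}
    (hB : ∀ x, |g x| ≤ B) (x : ℝ) :
    Summable (fun k : ℕ => ((b : ℝ) ^ (-α)) ^ k * g ((b : ℝ) ^ k * x)) := by
  have hβ := beta_pos hb α
  have hβ1 := beta_lt_one hb h0
  apply Summable.of_norm_bounded (g := fun k : ℕ => ((b : ℝ) ^ (-α)) ^ k * B)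
  · exact (summable_geometric_of_lt_one hβ.le hβ1).mul_right B
  · intro k
    rw [Real.norm_eq_abs, abs_mul, abs_of_nonneg (pow_nonneg hβ.le k)]
    exact mul_le_mul_of_nonneg_left (hB _) (pow_nonneg hβ.le k)

lemma W_eq {b : ℕ} {α : ℝ} (g : ℝ → ℝ) (x : ℝ) :
    W b α g x = ∑' k : ℕ, ((b : ℝ) ^ (-α)) ^ k * g ((b : ℝ) ^ k * x) := by
  unfold W
  congr 1
  ext k
  rw [beta_pow]

lemma W_add_int {b : ℕ} {α : ℝ} {g : ℝ → ℝ} (hper : Function.Periodic g 1) (x : ℝ) (n : ℤ) :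
    W b α g (x + n) = W b α g x := by
  unfold W
  congr 1
  ext k
  congr 1
  have h := hper.int_mul ((b : ℤ) ^ k * n)
  have h2 := h ((b : ℝ) ^ k * x)
  rw [← h2]
  congr 1
  push_cast
  ring

/-- a periodic Lipschitz function is bounded -/
lemma bounded_of_periodic {g : ℝ → ℝ} (hper : Function.Periodic g 1) {K : NNReal}
    (hL : LipschitzWith K g) : ∀ x, |g x| ≤ |g 0| + K := by
  intro x
  have h1 : g x = g (Int.fract x) := by
    have := hper.int_mul (⌊x⌋) (Int.fract x)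
    rw [← this]
    congr 1
    have := Int.fract_add_floor x
    linarith
  rw [h1]
  have h2 := hL.dist_le_mul (Int.fract x) 0
  rw [Real.dist_eq, Real.dist_eq, sub_zero, abs_of_nonneg (Int.fract_nonneg x)] at h2
  have h3 := Int.fract_lt_one x
  have h4 : (K : ℝ) * Int.fract x ≤ K := by
    have := K.coe_nonneg
    nlinarith
  have h5 : |g (Int.fract x)| ≤ |g 0| + |g (Int.fract x) - g 0| := by
    have := abs_add_le (g 0) (g (Int.fract x) - g 0)
    simpa using this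
  linarith

/-- a periodic Lipschitz function has oscillation at most its Lipschitz constant -/
lemma osc_of_periodic {g : ℝ → ℝ} (hper : Function.Periodic g 1) {K : NNReal}
    (hL : LipschitzWith K g) : ∀ x y, |g x - g y| ≤ K := by
  intro x y
  have h1 : ∀ x, g x = g (Int.fract x) := by
    intro x
    have := hper.int_mul (⌊x⌋) (Int.fract x)
    rw [← this]
    congr 1
    have := Int.fract_add_floor x
    linarith
  rw [h1 x, h1 y]
  have h2 := hL.dist_le_mul (Int.fract x) (Int.fract y)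
  rw [Real.dist_eq, Real.dist_eq] at h2
  have h3 : |Int.fract x - Int.fract y| ≤ 1 := by
    rw [abs_le]
    constructor <;>
    linarith [Int.fract_lt_one x, Int.fract_lt_one y, Int.fract_nonneg x, Int.fract_nonneg y]
  have := K.coe_nonneg
  nlinarith

/-- choosing a representative -/
lemma exists_rep (x y : ℝ) : ∃ n : ℤ, |x - (y + n)| = dist (x : UnitAddCircle) (y : UnitAddCircle) := by
  refine ⟨round (x - y), ?_⟩
  rw [dist_eq_norm, ← AddCircle.coe_sub, UnitAddCircle.norm_eq]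
  congr 1
  ring

lemma dist_le_half (x y : ℝ) : dist (x : UnitAddCircle) (y : UnitAddCircle) ≤ 1 / 2 := by
  rw [dist_eq_norm, ← AddCircle.coe_sub, UnitAddCircle.norm_eq]
  exact abs_sub_round (x - y)

lemma scale_bounds {b : ℕ} (hb : 2 ≤ b) {α : ℝ} (h0 : 0 < α) {r : ℝ} (hr : 0 < r) {N : ℕ}
    (h2 : r ≤ ((b : ℝ)⁻¹) ^ N) : r ^ α ≤ ((b : ℝ) ^ (-α)) ^ N := by
  have hb' : (2 : ℝ) ≤ b := by exact_mod_cast hb
  have hb0 : (0 : ℝ) ≤ b := by linarith
  have h3 : r ^ α ≤ (((b : ℝ)⁻¹) ^ N) ^ α := Real.rpow_le_rpow hr.le h2 h0.le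
  have h4 : (((b : ℝ)⁻¹) ^ N) ^ α = ((b : ℝ) ^ (-α)) ^ N := by
    rw [← Real.rpow_natCast, ← Real.rpow_natCast, ← Real.rpow_mul (inv_nonneg.mpr hb0),
      ← Real.rpow_mul hb0, Real.inv_rpow hb0, ← Real.rpow_neg hb0]
    congr 1
    ring
  linarith

lemma scale_bounds' {b : ℕ} (hb : 2 ≤ b) {α : ℝ} (h0 : 0 < α) {r : ℝ} {N : ℕ}
    (h2 : ((b : ℝ)⁻¹) ^ (N + 1) < r) : ((b : ℝ) ^ (-α)) ^ (N + 1) ≤ r ^ α := by
  have hb' : (2 : ℝ) ≤ b := by exact_mod_cast hb
  have hb0 : (0 : ℝ) ≤ b := by linarith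
  have h3 : (((b : ℝ)⁻¹) ^ (N + 1)) ^ α ≤ r ^ α :=
    Real.rpow_le_rpow (by positivity) h2.le h0.le
  have h4 : (((b : ℝ)⁻¹) ^ (N + 1)) ^ α = ((b : ℝ) ^ (-α)) ^ (N + 1) := by
    rw [← Real.rpow_natCast, ← Real.rpow_natCast, ← Real.rpow_mul (inv_nonneg.mpr hb0),
      ← Real.rpow_mul hb0, Real.inv_rpow hb0, ← Real.rpow_neg hb0]
    congr 1
    ring
  linarith

lemma rq_le {b : ℕ} (hb : 2 ≤ b) (α : ℝ) {r : ℝ} {N : ℕ} (h2 : r ≤ ((b : ℝ)⁻¹) ^ N) :
    r * ((b : ℝ) * (b : ℝ) ^ (-α)) ^ N ≤ ((b : ℝ) ^ (-α)) ^ N := by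
  have hb' : (2 : ℝ) ≤ b := by exact_mod_cast hb
  have hbN : (0 : ℝ) < (b : ℝ) ^ N := by positivity
  have hβ : 0 < ((b : ℝ) ^ (-α)) ^ N := pow_pos (beta_pos hb α) N
  rw [mul_pow, ← mul_assoc]
  have h3 : r * (b : ℝ) ^ N ≤ 1 := by
    calc r * (b : ℝ) ^ N ≤ ((b : ℝ)⁻¹) ^ N * (b : ℝ) ^ N :=
          mul_le_mul_of_nonneg_right h2 hbN.le
      _ = 1 := by
          rw [← mul_pow, inv_mul_cancel₀ (by linarith : (b : ℝ) ≠ 0), one_pow]
  calc r * (b : ℝ) ^ N * ((b : ℝ) ^ (-α)) ^ N ≤ 1 * ((b : ℝ) ^ (-α)) ^ N :=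
        mul_le_mul_of_nonneg_right h3 hβ.le
    _ = _ := one_mul _

/-! ### Upper bound -/

lemma W_upper {b : ℕ} (hb : 2 ≤ b) {α : ℝ} (h0 : 0 < α) (h1 : α < 1) {g : ℝ → ℝ}
    (hper : Function.Periodic g 1) {K : NNReal} (hL : LipschitzWith K g) :
    ∃ C : ℝ, 0 ≤ C ∧ ∀ x y : ℝ, |W b α g x - W b α g y| ≤
      C * dist (x : UnitAddCircle) (y : UnitAddCircle) ^ α := by
  set β : ℝ := (b : ℝ) ^ (-α) with hβdef
  set q : ℝ := (b : ℝ) * β with hqdef
  have hβ : 0 < β := beta_pos hb α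
  have hβ1 : β < 1 := beta_lt_one hb h0
  have hq : 1 < q := q_gt_one hb h1
  have hb' : (2 : ℝ) ≤ b := by exact_mod_cast hb
  have hK := K.coe_nonneg
  refine ⟨(K : ℝ) * ((q / (q - 1)) / β + 1 / (1 - β)), ?_, ?_⟩
  · apply mul_nonneg hK
    have : 0 < q - 1 := by linarith
    have : 0 < 1 - β := by linarith
    positivity
  intro x y
  obtain ⟨n, hn⟩ := exists_rep x y
  rw [← W_add_int hper y n, ← hn]
  set y' : ℝ := y + n with hy'
  set r : ℝ := |x - y'| with hr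
  have hr_le : r ≤ 1 := by
    rw [hn]
    have := dist_le_half x y
    linarith
  rcases (abs_nonneg (x - y')).eq_or_lt with h | hrpos
  · have hxy : x = y' := by
      have := abs_eq_zero.mp h.symm
      linarith
    rw [hxy]
    simp only [sub_self, abs_zero]
    apply mul_nonneg
    · apply mul_nonneg hK
      have : 0 < q - 1 := by linarith
      have : 0 < 1 - β := by linarith
      positivity
    · apply Real.rpow_nonneg
      exact abs_nonneg _
  have hrpos' : 0 < r := hrpos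
  obtain ⟨N, hN1, hN2⟩ := exists_nat_pow_near_of_lt_one hrpos' hr_le
    (by positivity : (0 : ℝ) < (b : ℝ)⁻¹) (inv_lt_one_of_one_lt₀ (by linarith))
  -- the terms
  set a : ℕ → ℝ := fun k => β ^ k * g ((b : ℝ) ^ k * x) - β ^ k * g ((b : ℝ) ^ k * y') with ha
  have hsx := summable_W hb h0 (bounded_of_periodic hper hL) x
  have hsy := summable_W hb h0 (bounded_of_periodic hper hL) y'
  have hsa : Summable a := hsx.sub hsy
  have hW : W b α g x - W b α g y' = ∑' k, a k := by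
    rw [W_eq, W_eq, ← hsx.tsum_sub hsy]
  have hak1 : ∀ k, |a k| ≤ K * (q ^ k * r) := by
    intro k
    have : a k = β ^ k * (g ((b : ℝ) ^ k * x) - g ((b : ℝ) ^ k * y')) := by
      simp only [ha]; ring
    rw [this, abs_mul, abs_of_nonneg (pow_nonneg hβ.le k)]
    have h := hL.dist_le_mul ((b : ℝ) ^ k * x) ((b : ℝ) ^ k * y')
    have hbk : (0 : ℝ) ≤ (b : ℝ) ^ k := by positivity
    rw [Real.dist_eq, Real.dist_eq, ← mul_sub, abs_mul, abs_of_nonneg hbk] at h
    calc β ^ k * |g ((b : ℝ) ^ k * x) - g ((b : ℝ) ^ k * y')|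
        ≤ β ^ k * (K * ((b : ℝ) ^ k * |x - y'|)) :=
          mul_le_mul_of_nonneg_left h (pow_nonneg hβ.le k)
      _ = K * (q ^ k * r) := by rw [hqdef, mul_pow, hr]; ring
  have hak2 : ∀ k, |a k| ≤ K * β ^ k := by
    intro k
    have : a k = β ^ k * (g ((b : ℝ) ^ k * x) - g ((b : ℝ) ^ k * y')) := by
      simp only [ha]; ring
    rw [this, abs_mul, abs_of_nonneg (pow_nonneg hβ.le k)]
    have h := osc_of_periodic hper hL ((b : ℝ) ^ k * x) ((b : ℝ) ^ k * y')
    calc β ^ k * |g ((b : ℝ) ^ k * x) - g ((b : ℝ) ^ k * y')|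
        ≤ β ^ k * K := mul_le_mul_of_nonneg_left h (pow_nonneg hβ.le k)
      _ = K * β ^ k := by ring
  have hsplit : ∑' k, a k = (∑ k ∈ Finset.range (N + 1), a k) + ∑' k, a (k + (N + 1)) :=
    (hsa.sum_add_tsum_nat_add (N + 1)).symm
  have hhead : |∑ k ∈ Finset.range (N + 1), a k| ≤ K * ((q / (q - 1)) * β ^ N) := by
    calc |∑ k ∈ Finset.range (N + 1), a k| ≤ ∑ k ∈ Finset.range (N + 1), |a k| :=
          Finset.abs_sum_le_sum_abs _ _
      _ ≤ ∑ k ∈ Finset.range (N + 1), K * (q ^ k * r) := Finset.sum_le_sum fun k _ => hak1 k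
      _ = K * (r * ∑ k ∈ Finset.range (N + 1), q ^ k) := by
          rw [← Finset.mul_sum, ← Finset.sum_mul]; ring
      _ ≤ K * ((q / (q - 1)) * β ^ N) := by
          apply mul_le_mul_of_nonneg_left _ hK
          rw [geom_sum_eq (by linarith)]
          have hq1 : 0 < q - 1 := by linarith
          have e1 : r * ((q ^ (N + 1) - 1) / (q - 1)) ≤ (q / (q - 1)) * (r * q ^ N) := by
            rw [mul_div_assoc', div_mul_eq_mul_div, div_le_div_iff_of_pos_right hq1, pow_succ]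
            nlinarith
          have e2 : r * q ^ N ≤ β ^ N := rq_le hb α hN2
          have e3 : 0 ≤ q / (q - 1) := by positivity
          calc _ ≤ (q / (q - 1)) * (r * q ^ N) := e1
            _ ≤ _ := mul_le_mul_of_nonneg_left e2 e3
  have htail : |∑' k, a (k + (N + 1))| ≤ K * (β ^ (N + 1) / (1 - β)) := by
    have hgs : HasSum (fun k : ℕ => (K : ℝ) * β ^ (k + (N + 1))) (K * (β ^ (N + 1) / (1 - β))) := by
      have h5 := (hasSum_geometric_of_lt_one hβ.le hβ1).mul_left ((K : ℝ) * β ^ (N + 1))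
      have e1 : (fun k : ℕ => (K : ℝ) * β ^ (k + (N + 1))) =
          fun k : ℕ => (K : ℝ) * β ^ (N + 1) * β ^ k := by
        funext k
        rw [pow_add β k (N + 1)]
        ring
      have e2 : (K : ℝ) * (β ^ (N + 1) / (1 - β)) = K * β ^ (N + 1) * (1 - β)⁻¹ := by
        rw [div_eq_mul_inv]; ring
      rw [e1, e2]
      exact h5
    have := tsum_of_norm_bounded hgs (f := fun k => a (k + (N + 1)))
      (fun k => by simpa using hak2 (k + (N + 1)))
    simpa using this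
  have hrα : β ^ (N + 1) ≤ r ^ α := scale_bounds' hb h0 hN1
  rw [hW, hsplit]
  have hβN : β ^ N = β ^ (N + 1) / β := by
    rw [pow_succ]; field_simp
  calc |(∑ k ∈ Finset.range (N + 1), a k) + ∑' k, a (k + (N + 1))|
      ≤ K * ((q / (q - 1)) * β ^ N) + K * (β ^ (N + 1) / (1 - β)) :=
        (abs_add_le _ _).trans (add_le_add hhead htail)
    _ = K * ((q / (q - 1)) / β + 1 / (1 - β)) * β ^ (N + 1) := by
        rw [hβN]
        have : (1 - β) ≠ 0 := by linarith
        have : (q - 1) ≠ 0 := by linarith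
        field_simp
    _ ≤ K * ((q / (q - 1)) / β + 1 / (1 - β)) * r ^ α := by
        apply mul_le_mul_of_nonneg_left hrα
        apply mul_nonneg hK
        have : 0 < q - 1 := by linarith
        have : 0 < 1 - β := by linarith
        positivity

/-! ### The telescoping trick: every bounded `h` is of the form `W_g` -/

lemma W_telescope {b : ℕ} (hb : 2 ≤ b) {α : ℝ} (h0 : 0 < α) {h : ℝ → ℝ} {B : ℝ}
    (hB : ∀ x, |h x| ≤ B) (x : ℝ) :
    W b α (fun u => h u - (b : ℝ) ^ (-α) * h (b * u)) x = h x := by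
  rw [W_eq]
  have hs := summable_W hb h0 hB x
  have e : ∀ k : ℕ, ((b : ℝ) ^ (-α)) ^ k *
      (h ((b : ℝ) ^ k * x) - (b : ℝ) ^ (-α) * h (b * ((b : ℝ) ^ k * x))) =
      ((b : ℝ) ^ (-α)) ^ k * h ((b : ℝ) ^ k * x) -
      ((b : ℝ) ^ (-α)) ^ (k + 1) * h ((b : ℝ) ^ (k + 1) * x) := by
    intro k
    have : (b : ℝ) * ((b : ℝ) ^ k * x) = (b : ℝ) ^ (k + 1) * x := by rw [pow_succ]; ring
    rw [this, pow_succ]
    ring
  simp_rw [e]
  have hs' : Summable (fun k : ℕ => ((b : ℝ) ^ (-α)) ^ (k + 1) * h ((b : ℝ) ^ (k + 1) * x)) :=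
    (summable_nat_add_iff 1).mpr hs
  rw [hs.tsum_sub hs', hs.tsum_eq_zero_add]
  simp

/-! ### Sawtooth functions -/

/-- increasing staircase with slope `M` on `[c, c + 1/M]` for integers `c` -/
noncomputable def S (M : ℕ) (u : ℝ) : ℝ := ⌊u⌋ + min ((M : ℝ) * Int.fract u) 1

lemma S_mono (M : ℕ) : Monotone (S M) := by
  intro u v huv
  unfold S
  rcases (Int.floor_mono huv).eq_or_lt with h | h
  · rw [h]
    have : Int.fract u ≤ Int.fract v := by
      have h1 := Int.fract_add_floor u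
      have h2 := Int.fract_add_floor v
      rw [h] at h1
      linarith
    have h3 : (M : ℝ) * Int.fract u ≤ M * Int.fract v :=
      mul_le_mul_of_nonneg_left this (Nat.cast_nonneg M)
    have := min_le_min_right (1 : ℝ) h3
    linarith
  · have h1 : (⌊u⌋ : ℝ) + 1 ≤ ⌊v⌋ := by exact_mod_cast h
    have h2 : min ((M : ℝ) * Int.fract u) 1 ≤ 1 := min_le_right _ _
    have h3 : 0 ≤ min ((M : ℝ) * Int.fract v) 1 :=
      le_min (mul_nonneg (Nat.cast_nonneg M) (Int.fract_nonneg v)) zero_le_one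
    linarith

lemma S_lip {M : ℕ} (hM : 1 ≤ M) {u v : ℝ} (huv : u ≤ v) : S M v - S M u ≤ M * (v - u) := by
  have hM' : (1 : ℝ) ≤ M := by exact_mod_cast hM
  unfold S
  have hu := Int.fract_add_floor u
  have hv := Int.fract_add_floor v
  have hfu := Int.fract_nonneg u
  have hfu1 := Int.fract_lt_one u
  have hfv := Int.fract_nonneg v
  rcases (Int.floor_mono huv).eq_or_lt with h | h
  · have hr : (⌊u⌋ : ℝ) = ⌊v⌋ := by exact_mod_cast h
    rcases le_total ((M : ℝ) * Int.fract u) 1 with h1 | h1 <;>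
    rcases le_total ((M : ℝ) * Int.fract v) 1 with h2 | h2
    · rw [min_eq_left h1, min_eq_left h2]; nlinarith
    · rw [min_eq_left h1, min_eq_right h2]; nlinarith
    · rw [min_eq_right h1, min_eq_left h2]; nlinarith
    · rw [min_eq_right h1, min_eq_right h2]; nlinarith
  · have h1 : (⌊u⌋ : ℝ) + 1 ≤ ⌊v⌋ := by exact_mod_cast h
    have h2 : min ((M : ℝ) * Int.fract v) 1 ≤ M * Int.fract v := min_le_left _ _
    have h3 : 1 - min ((M : ℝ) * Int.fract u) 1 ≤ M * (1 - Int.fract u) := by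
      rcases le_total ((M : ℝ) * Int.fract u) 1 with h1 | h1
      · rw [min_eq_left h1]; nlinarith
      · rw [min_eq_right h1]; nlinarith
    have h4 : (⌊v⌋ : ℝ) - (⌊u⌋ + 1) ≤ M * (⌊v⌋ - (⌊u⌋ + 1)) := by nlinarith
    have h5 : (M : ℝ) * (v - u) = M * Int.fract v + M * (1 - Int.fract u) +
        M * (⌊v⌋ - (⌊u⌋ + 1)) := by
      rw [← mul_add, ← mul_add]
      congr 1
      linarith
    linarith

/-- the `1`-periodic sawtooth `S(u) - u`, translated by `c` -/
noncomputable def saw (M : ℕ) (c : ℝ) (u : ℝ) : ℝ := S M (u - c) - (u - c)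

lemma saw_periodic (M : ℕ) (c : ℝ) : Function.Periodic (saw M c) 1 := by
  intro u
  unfold saw S
  have : u + 1 - c = (u - c) + 1 := by ring
  rw [this, Int.floor_add_one, Int.fract_add_one]
  push_cast
  ring

lemma saw_nonneg {M : ℕ} (hM : 1 ≤ M) (c u : ℝ) : 0 ≤ saw M c u := by
  have hM' : (1 : ℝ) ≤ M := by exact_mod_cast hM
  unfold saw S
  have hu := Int.fract_add_floor (u - c)
  have h1 := Int.fract_nonneg (u - c)
  have h2 := Int.fract_lt_one (u - c)
  have : Int.fract (u - c) ≤ min ((M : ℝ) * Int.fract (u - c)) 1 := by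
    apply le_min
    · nlinarith
    · linarith
  linarith

lemma saw_le_one (M : ℕ) (c u : ℝ) : saw M c u ≤ 1 := by
  unfold saw S
  have hu := Int.fract_add_floor (u - c)
  have h1 := Int.fract_nonneg (u - c)
  have : min ((M : ℝ) * Int.fract (u - c)) 1 ≤ 1 := min_le_right _ _
  linarith

lemma saw_lipschitz {M : ℕ} (hM : 1 ≤ M) (c : ℝ) : LipschitzWith (M : NNReal) (saw M c) := by
  have hM' : (1 : ℝ) ≤ M := by exact_mod_cast hM
  apply LipschitzWith.of_dist_le_mul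
  intro u v
  rw [Real.dist_eq, Real.dist_eq]
  wlog huv : v ≤ u generalizing u v
  · rw [abs_sub_comm, abs_sub_comm u v]
    exact this v u (le_of_not_ge huv)
  rw [abs_of_nonneg (sub_nonneg.mpr huv)]
  have h1 := S_lip hM (sub_le_sub_right huv c)
  have h2 := S_mono M (sub_le_sub_right huv c)
  unfold saw
  rw [abs_le]
  push_cast
  constructor <;> nlinarith

/-- increments of the sawtooth -/
lemma saw_incr {M : ℕ} {c u v : ℝ} (huv : u ≤ v) : -(v - u) ≤ saw M c v - saw M c u := by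
  have h2 := S_mono M (sub_le_sub_right huv c)
  unfold saw
  linarith

/-- a big increment, when `[u,v]` contains a full tooth -/
lemma exists_saw_incr {M : ℕ} (hM : 2 ≤ M) {u v : ℝ} (huv : 2 / (M : ℝ) ≤ v - u) :
    ∃ j : Fin M, 1 - (v - u) ≤ saw M ((j : ℕ) / (M : ℝ)) v - saw M ((j : ℕ) / (M : ℝ)) u := by
  have hM' : (2 : ℝ) ≤ M := by exact_mod_cast hM
  have hM0 : (0 : ℝ) < M := by linarith
  have hMZ : (0 : ℤ) < M := by omega
  set p : ℤ := ⌈(M : ℝ) * u⌉ with hp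
  have hp1 : (M : ℝ) * u ≤ p := Int.le_ceil _
  have hp2 : (p : ℝ) < M * u + 1 := Int.ceil_lt_add_one _
  have hj0 : 0 ≤ p % (M : ℤ) := Int.emod_nonneg p hMZ.ne'
  have hj1 : p % (M : ℤ) < M := Int.emod_lt_of_pos p hMZ
  set j : ℕ := (p % (M : ℤ)).toNat with hj
  have hjM : j < M := by omega
  have hjcast : ((j : ℕ) : ℤ) = p % (M : ℤ) := Int.toNat_of_nonneg hj0
  set c : ℤ := p / (M : ℤ) with hc
  have hdecomp : (p : ℝ) = M * c + j := by
    have h := Int.mul_ediv_add_emod p (M : ℤ)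
    rw [← hjcast, ← hc] at h
    exact_mod_cast h.symm
  refine ⟨⟨j, hjM⟩, ?_⟩
  simp only
  have h2M : 2 ≤ (v - u) * M := by
    rwa [div_le_iff₀ hM0] at huv
  -- left end
  have hleft : u - (j : ℝ) / M ≤ c := by
    rw [sub_le_iff_le_add, ← mul_le_mul_iff_right₀ hM0]
    have : (M : ℝ) * (c + j / M) = p := by
      rw [hdecomp]; field_simp
    rw [this]
    exact hp1
  have hright : (c : ℝ) + 1 / M ≤ v - (j : ℝ) / M := by
    rw [le_sub_iff_add_le, ← mul_le_mul_iff_right₀ hM0]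
    have : (M : ℝ) * (c + 1 / M + j / M) = p + 1 := by
      rw [hdecomp]; field_simp; ring
    rw [this]
    nlinarith
  have hS1 : S M (u - (j : ℝ) / M) ≤ c := by
    refine (S_mono M hleft).trans ?_
    unfold S
    simp
  have hS2 : (c : ℝ) + 1 ≤ S M (v - (j : ℝ) / M) := by
    refine le_trans ?_ (S_mono M hright)
    unfold S
    have hlt : (1 : ℝ) / M < 1 := by
      rw [div_lt_one hM0]; linarith
    have hf : ⌊(c : ℝ) + 1 / M⌋ = c := by
      rw [Int.floor_eq_iff]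
      constructor
      · have : (0 : ℝ) ≤ 1 / M := by positivity
        linarith
      · linarith
    have hfr : Int.fract ((c : ℝ) + 1 / M) = 1 / M := by
      unfold Int.fract
      rw [hf]; ring
    rw [hf, hfr]
    have : (M : ℝ) * (1 / M) = 1 := by field_simp
    rw [this]
    simp
  unfold saw
  linarith

/-! ### Lower bound at small distances -/

lemma lower_small {b : ℕ} (hb : 2 ≤ b) {α : ℝ} (h0 : 0 < α) (h1 : α < 1) {n : ℕ}
    (hn : 1 + ((b : ℝ) * (b : ℝ) ^ (-α)) / ((b : ℝ) * (b : ℝ) ^ (-α) - 1) +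
      (b : ℝ) ^ (-α) / (1 - (b : ℝ) ^ (-α)) ≤ (((b : ℝ) ^ (-α)) ^ n)⁻¹)
    {M : ℕ} (hM : M = 2 * b ^ (n + 1)) {x y : ℝ} (hxy : x < y)
    (hsmall : y - x ≤ ((b : ℝ)⁻¹) ^ n) :
    ∃ j : Fin M, (y - x) ^ α ≤
      |W b α (saw M ((j : ℕ) / (M : ℝ))) y - W b α (saw M ((j : ℕ) / (M : ℝ))) x| := by
  set β : ℝ := (b : ℝ) ^ (-α) with hβdef
  set q : ℝ := (b : ℝ) * β with hqdef
  have hβ : 0 < β := beta_pos hb α
  have hβ1 : β < 1 := beta_lt_one hb h0
  have hq : 1 < q := q_gt_one hb h1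
  have hb' : (2 : ℝ) ≤ b := by exact_mod_cast hb
  have hb0 : (0 : ℝ) < b := by linarith
  set r : ℝ := y - x with hr
  have hrpos : 0 < r := by linarith
  have hinv1 : (b : ℝ)⁻¹ < 1 := inv_lt_one_of_one_lt₀ (by linarith)
  have hinv0 : (0 : ℝ) < (b : ℝ)⁻¹ := by positivity
  have hr_le : r ≤ 1 := hsmall.trans (pow_le_one₀ hinv0.le hinv1.le)
  obtain ⟨N, hN1, hN2⟩ := exists_nat_pow_near_of_lt_one hrpos hr_le hinv0 hinv1
  have hnN : n ≤ N := by
    by_contra hcon
    push Not at hcon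
    have h3 : ((b : ℝ)⁻¹) ^ n ≤ ((b : ℝ)⁻¹) ^ (N + 1) :=
      pow_le_pow_of_le_one hinv0.le hinv1.le hcon
    linarith
  have hM2 : 2 ≤ M := by
    rw [hM]
    have : 1 ≤ b ^ (n + 1) := Nat.one_le_pow _ _ (by omega)
    omega
  have hM1 : 1 ≤ M := by omega
  -- the scale `k₀ = N - n`
  set k0 : ℕ := N - n with hk0
  have hk0N : k0 + n = N := by omega
  have hbk0 : (0 : ℝ) < (b : ℝ) ^ k0 := by positivity
  have hlen : 2 / (M : ℝ) ≤ (b : ℝ) ^ k0 * y - (b : ℝ) ^ k0 * x := by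
    rw [← mul_sub, ← hr, hM]
    push_cast
    have e1 : (2 : ℝ) / (2 * (b : ℝ) ^ (n + 1)) = ((b : ℝ)⁻¹) ^ (n + 1) := by
      rw [inv_pow]; field_simp
    have e2 : ((b : ℝ)⁻¹) ^ (n + 1) = (b : ℝ) ^ k0 * ((b : ℝ)⁻¹) ^ (N + 1) := by
      rw [← hk0N, inv_pow, inv_pow, show k0 + n + 1 = k0 + (n + 1) by ring, pow_add]
      field_simp
      ring
    rw [e1, e2]
    exact mul_le_mul_of_nonneg_left hN1.le hbk0.le
  obtain ⟨j, hj⟩ := exists_saw_incr hM2 hlen
  refine ⟨j, ?_⟩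
  set g : ℝ → ℝ := saw M ((j : ℕ) / (M : ℝ)) with hg
  have hgper : Function.Periodic g 1 := saw_periodic M _
  have hgb : ∀ u, |g u| ≤ 1 := by
    intro u
    rw [abs_of_nonneg (saw_nonneg hM1 _ u)]
    exact saw_le_one M _ u
  set a : ℕ → ℝ := fun k => β ^ k * g ((b : ℝ) ^ k * y) - β ^ k * g ((b : ℝ) ^ k * x) with ha
  have hsx := summable_W hb h0 hgb x
  have hsy := summable_W hb h0 hgb y
  have hsa : Summable a := hsy.sub hsx
  have hW : W b α g y - W b α g x = ∑' k, a k := by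
    rw [W_eq, W_eq, ← hsy.tsum_sub hsx]
  have hak : ∀ k, a k = β ^ k * (g ((b : ℝ) ^ k * y) - g ((b : ℝ) ^ k * x)) := by
    intro k
    simp only [ha]; ring
  have hqk : ∀ k, q ^ k * r = β ^ k * ((b : ℝ) ^ k * y - (b : ℝ) ^ k * x) := by
    intro k
    rw [hqdef, mul_pow, hr]; ring
  -- lower bounds on the terms
  have hterm1 : ∀ k, 0 ≤ a k + q ^ k * r := by
    intro k
    rw [hak, hqk, ← mul_add]
    apply mul_nonneg (pow_nonneg hβ.le k)
    have hmono : (b : ℝ) ^ k * x ≤ (b : ℝ) ^ k * y :=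
      mul_le_mul_of_nonneg_left hxy.le (by positivity)
    have := saw_incr (M := M) (c := (j : ℕ) / (M : ℝ)) hmono
    rw [← hg] at this
    linarith
  have hterm2 : β ^ k0 ≤ a k0 + q ^ k0 * r := by
    rw [hak, hqk, ← mul_add]
    have h3 : (1 : ℝ) ≤ (g ((b : ℝ) ^ k0 * y) - g ((b : ℝ) ^ k0 * x) +
        ((b : ℝ) ^ k0 * y - (b : ℝ) ^ k0 * x)) := by linarith
    have := mul_le_mul_of_nonneg_left h3 (pow_nonneg hβ.le k0)
    linarith
  have hterm3 : ∀ k, -β ^ k ≤ a k := by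
    intro k
    rw [hak]
    have h3 : (-1 : ℝ) ≤ g ((b : ℝ) ^ k * y) - g ((b : ℝ) ^ k * x) := by
      have h4 := saw_nonneg hM1 ((j : ℕ) / (M : ℝ)) ((b : ℝ) ^ k * y)
      have h5 := saw_le_one M ((j : ℕ) / (M : ℝ)) ((b : ℝ) ^ k * x)
      rw [← hg] at h4 h5
      linarith
    have := mul_le_mul_of_nonneg_left h3 (pow_nonneg hβ.le k)
    linarith
  have hsplit : ∑' k, a k = (∑ k ∈ Finset.range (N + 1), a k) + ∑' k, a (k + (N + 1)) :=
    (hsa.sum_add_tsum_nat_add (N + 1)).symm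
  have hq1 : 0 < q - 1 := by linarith
  have hb1 : 0 < 1 - β := by linarith
  have e2 : r * q ^ N ≤ β ^ N := rq_le hb α hN2
  have hgeo : (∑ k ∈ Finset.range (N + 1), q ^ k * r) ≤ (q / (q - 1)) * β ^ N := by
    rw [← Finset.sum_mul, geom_sum_eq (by linarith)]
    have e1 : ((q ^ (N + 1) - 1) / (q - 1)) * r ≤ (q / (q - 1)) * (r * q ^ N) := by
      rw [div_mul_eq_mul_div, div_mul_eq_mul_div, div_le_div_iff_of_pos_right hq1, pow_succ]
      nlinarith
    have e3 : 0 ≤ q / (q - 1) := by positivity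
    exact e1.trans (mul_le_mul_of_nonneg_left e2 e3)
  have hhead : β ^ k0 - (q / (q - 1)) * β ^ N ≤ ∑ k ∈ Finset.range (N + 1), a k := by
    have h3 : β ^ k0 ≤ ∑ k ∈ Finset.range (N + 1), (a k + q ^ k * r) := by
      refine hterm2.trans ?_
      exact Finset.single_le_sum (f := fun k => a k + q ^ k * r) (fun k _ => hterm1 k)
        (Finset.mem_range.mpr (by omega))
    rw [Finset.sum_add_distrib] at h3
    linarith
  have htail : -(β ^ (N + 1) / (1 - β)) ≤ ∑' k, a (k + (N + 1)) := by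
    have h5 := (hasSum_geometric_of_lt_one hβ.le hβ1).mul_left (-β ^ (N + 1))
    have e1 : (fun k : ℕ => -β ^ (N + 1) * β ^ k) = fun k : ℕ => -β ^ (k + (N + 1)) := by
      funext k
      rw [pow_add β k (N + 1)]
      ring
    have e2 : -β ^ (N + 1) * (1 - β)⁻¹ = -(β ^ (N + 1) / (1 - β)) := by
      rw [div_eq_mul_inv]; ring
    rw [e1, e2] at h5
    have hs' : Summable (fun k => a (k + (N + 1))) := (summable_nat_add_iff (N + 1)).mpr hsa
    exact hasSum_le (fun k => hterm3 (k + (N + 1))) h5 hs'.hasSum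
  have hrα : r ^ α ≤ β ^ N := scale_bounds hb h0 hrpos hN2
  have hβk0 : β ^ k0 = β ^ N * (β ^ n)⁻¹ := by
    rw [← hk0N, pow_add]
    field_simp
  have hβN : 0 < β ^ N := pow_pos hβ N
  have hβN1 : β ^ (N + 1) = β ^ N * β := pow_succ β N
  have hfin : β ^ N ≤ W b α g y - W b α g x := by
    rw [hW, hsplit]
    have h6 : β ^ N * (1 + q / (q - 1) + β / (1 - β)) ≤ β ^ N * (β ^ n)⁻¹ :=
      mul_le_mul_of_nonneg_left hn hβN.le
    have h7 : β ^ (N + 1) / (1 - β) = β ^ N * (β / (1 - β)) := by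
      rw [hβN1, mul_div_assoc]
    rw [← hβk0] at h6
    rw [h7] at htail
    linarith
  exact (hrα.trans hfin).trans (le_abs_self _)

/-! ### Large distances: the coordinates `cos (2πx)` and `sin (2πx)` -/

lemma cos_sin_dist (x y : ℝ) :
    (Real.cos (2 * Real.pi * x) - Real.cos (2 * Real.pi * y)) ^ 2 +
      (Real.sin (2 * Real.pi * x) - Real.sin (2 * Real.pi * y)) ^ 2 =
      4 * Real.sin (Real.pi * (x - y)) ^ 2 := by
  have h1 : Real.cos (2 * Real.pi * (x - y)) =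
      Real.cos (2 * Real.pi * x) * Real.cos (2 * Real.pi * y) +
      Real.sin (2 * Real.pi * x) * Real.sin (2 * Real.pi * y) := by
    rw [mul_sub, Real.cos_sub]
  have h2 : Real.cos (2 * Real.pi * (x - y)) = 1 - 2 * Real.sin (Real.pi * (x - y)) ^ 2 := by
    have : 2 * Real.pi * (x - y) = 2 * (Real.pi * (x - y)) := by ring
    rw [this, Real.cos_two_mul]
    have := Real.sin_sq_add_cos_sq (Real.pi * (x - y))
    linarith
  have h3 := Real.sin_sq_add_cos_sq (2 * Real.pi * x)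
  have h4 := Real.sin_sq_add_cos_sq (2 * Real.pi * y)
  nlinarith

/-- if `x, y` have circle distance at least `δ` (with `|x - y| ≤ 1/2`), then one of the
coordinates `cos`, `sin` moves by at least `2 δ`. -/
lemma cos_or_sin {x y δ : ℝ} (hδ : 0 ≤ δ) (h1 : δ ≤ |x - y|) (h2 : |x - y| ≤ 1 / 2) :
    2 * δ ≤ |Real.cos (2 * Real.pi * x) - Real.cos (2 * Real.pi * y)| ∨
    2 * δ ≤ |Real.sin (2 * Real.pi * x) - Real.sin (2 * Real.pi * y)| := by
  by_contra hcon
  push Not at hcon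
  obtain ⟨ha, hb⟩ := hcon
  have h3 := cos_sin_dist x y
  have h4 : (Real.cos (2 * Real.pi * x) - Real.cos (2 * Real.pi * y)) ^ 2 < (2 * δ) ^ 2 := by
    rw [← sq_abs]
    exact pow_lt_pow_left₀ ha (abs_nonneg _) two_ne_zero
  have h5 : (Real.sin (2 * Real.pi * x) - Real.sin (2 * Real.pi * y)) ^ 2 < (2 * δ) ^ 2 := by
    rw [← sq_abs]
    exact pow_lt_pow_left₀ hb (abs_nonneg _) two_ne_zero
  have h6 : 2 * |x - y| ≤ |Real.sin (Real.pi * (x - y))| := by
    have hpi := Real.pi_pos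
    have h7 : |Real.sin (Real.pi * (x - y))| = Real.sin (Real.pi * |x - y|) := by
      rcases le_total 0 (x - y) with h | h
      · rw [abs_of_nonneg h, abs_of_nonneg]
        apply Real.sin_nonneg_of_nonneg_of_le_pi
        · positivity
        · rw [abs_of_nonneg h] at h2
          nlinarith
      · rw [abs_of_nonpos h, mul_neg, Real.sin_neg, abs_of_nonpos]
        apply Real.sin_nonpos_of_nonpos_of_neg_pi_le
        · exact mul_nonpos_of_nonneg_of_nonpos hpi.le h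
        · rw [abs_of_nonpos h] at h2
          nlinarith
    rw [h7]
    have h8 := Real.mul_le_sin (x := Real.pi * |x - y|) (by positivity) (by nlinarith)
    calc 2 * |x - y| = 2 / Real.pi * (Real.pi * |x - y|) := by field_simp
      _ ≤ _ := h8
  have h9 : (2 * |x - y|) ^ 2 ≤ Real.sin (Real.pi * (x - y)) ^ 2 := by
    rw [← sq_abs (Real.sin _)]
    exact pow_le_pow_left₀ (by positivity) h6 2
  have h10 : δ ^ 2 ≤ |x - y| ^ 2 := pow_le_pow_left₀ hδ h1 2
  nlinarith [sq_abs (x - y)]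

/-- the two auxiliary functions whose Weierstrass functions are `cos (2πx)`, `sin (2πx)` -/
noncomputable def gcos (b : ℕ) (α : ℝ) (u : ℝ) : ℝ :=
  Real.cos (2 * Real.pi * u) - (b : ℝ) ^ (-α) * Real.cos (2 * Real.pi * (b * u))

noncomputable def gsin (b : ℕ) (α : ℝ) (u : ℝ) : ℝ :=
  Real.sin (2 * Real.pi * u) - (b : ℝ) ^ (-α) * Real.sin (2 * Real.pi * (b * u))

lemma W_gcos {b : ℕ} (hb : 2 ≤ b) {α : ℝ} (h0 : 0 < α) (x : ℝ) :
    W b α (gcos b α) x = Real.cos (2 * Real.pi * x) :=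
  W_telescope hb h0 (h := fun u => Real.cos (2 * Real.pi * u)) (B := 1)
    (fun _ => Real.abs_cos_le_one _) x

lemma W_gsin {b : ℕ} (hb : 2 ≤ b) {α : ℝ} (h0 : 0 < α) (x : ℝ) :
    W b α (gsin b α) x = Real.sin (2 * Real.pi * x) :=
  W_telescope hb h0 (h := fun u => Real.sin (2 * Real.pi * u)) (B := 1)
    (fun _ => Real.abs_sin_le_one _) x

lemma gcos_periodic (b : ℕ) (α : ℝ) : Function.Periodic (gcos b α) 1 := by
  intro u
  unfold gcos
  congr 1
  · have : 2 * Real.pi * (u + 1) = 2 * Real.pi * u + 2 * Real.pi := by ring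
    rw [this, Real.cos_add_two_pi]
  · congr 1
    have : 2 * Real.pi * ((b : ℝ) * (u + 1)) = 2 * Real.pi * (b * u) + b * (2 * Real.pi) := by
      ring
    rw [this, Real.cos_add_nat_mul_two_pi]

lemma gsin_periodic (b : ℕ) (α : ℝ) : Function.Periodic (gsin b α) 1 := by
  intro u
  unfold gsin
  congr 1
  · have : 2 * Real.pi * (u + 1) = 2 * Real.pi * u + 2 * Real.pi := by ring
    rw [this, Real.sin_add_two_pi]
  · congr 1
    have : 2 * Real.pi * ((b : ℝ) * (u + 1)) = 2 * Real.pi * (b * u) + b * (2 * Real.pi) := by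
      ring
    rw [this, Real.sin_add_nat_mul_two_pi]

lemma lip_aux {f : ℝ → ℝ} (hf : ∀ u v, |f u - f v| ≤ |u - v|) (b : ℕ) (β : ℝ) (hβ : 0 ≤ β) :
    ∃ K : NNReal, LipschitzWith K (fun u => f (2 * Real.pi * u) - β * f (2 * Real.pi * (b * u))) := by
  refine ⟨Real.toNNReal (2 * Real.pi + β * (2 * Real.pi * b)), LipschitzWith.of_dist_le_mul ?_⟩
  intro u v
  have hpi := Real.pi_pos
  have hb : (0 : ℝ) ≤ b := Nat.cast_nonneg b
  rw [Real.dist_eq, Real.dist_eq, Real.coe_toNNReal _ (by positivity)]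
  have h1 := hf (2 * Real.pi * u) (2 * Real.pi * v)
  have h2 := hf (2 * Real.pi * (b * u)) (2 * Real.pi * (b * v))
  have e1 : |2 * Real.pi * u - 2 * Real.pi * v| = 2 * Real.pi * |u - v| := by
    rw [← mul_sub, abs_mul, abs_of_nonneg (by positivity)]
  have e2 : |2 * Real.pi * (b * u) - 2 * Real.pi * (b * v)| = 2 * Real.pi * b * |u - v| := by
    rw [← mul_sub, ← mul_sub, ← mul_assoc, abs_mul, abs_of_nonneg (by positivity)]
  rw [e1] at h1
  rw [e2] at h2
  have h3 : f (2 * Real.pi * u) - β * f (2 * Real.pi * (b * u)) -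
      (f (2 * Real.pi * v) - β * f (2 * Real.pi * (b * v))) =
      (f (2 * Real.pi * u) - f (2 * Real.pi * v)) +
      (-(β * (f (2 * Real.pi * (b * u)) - f (2 * Real.pi * (b * v))))) := by ring
  rw [h3]
  refine (abs_add_le _ _).trans ?_
  rw [abs_neg, abs_mul, abs_of_nonneg hβ]
  have h4 := mul_le_mul_of_nonneg_left h2 hβ
  linarith

lemma gcos_lip {b : ℕ} (hb : 2 ≤ b) (α : ℝ) : ∃ K : NNReal, LipschitzWith K (gcos b α) :=
  lip_aux (f := Real.cos) (fun u v => Real.abs_cos_sub_cos_le u v) b _ (beta_pos hb α).le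

lemma gsin_lip {b : ℕ} (hb : 2 ≤ b) (α : ℝ) : ∃ K : NNReal, LipschitzWith K (gsin b α) :=
  lip_aux (f := Real.sin) (fun u v => Real.abs_sin_sub_sin_le u v) b _ (beta_pos hb α).le

/-- the full family: `M` translated sawtooth functions and the two functions above -/
noncomputable def fam (b : ℕ) (α : ℝ) (M : ℕ) (i : Fin (M + 2)) : ℝ → ℝ :=
  if (i : ℕ) < M then saw M (((i : ℕ) : ℝ) / (M : ℝ)) else
  if (i : ℕ) = M then gcos b α else gsin b α

lemma fam_periodic (b : ℕ) (α : ℝ) (M : ℕ) (i : Fin (M + 2)) :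
    Function.Periodic (fam b α M i) 1 := by
  unfold fam
  split_ifs
  · exact saw_periodic M _
  · exact gcos_periodic b α
  · exact gsin_periodic b α

lemma fam_lip {b : ℕ} (hb : 2 ≤ b) (α : ℝ) {M : ℕ} (hM : 1 ≤ M) (i : Fin (M + 2)) :
    ∃ K : NNReal, LipschitzWith K (fam b α M i) := by
  unfold fam
  split_ifs
  · exact ⟨M, saw_lipschitz hM _⟩
  · exact gcos_lip hb α
  · exact gsin_lip hb α

/-- Each coordinate of the embedding is bounded by the Euclidean norm. -/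
lemma coord_le_norm {b : ℕ} {α : ℝ} {m : ℕ} (g : Fin m → ℝ → ℝ) (x y : ℝ) (i : Fin m) :
    |W b α (g i) x - W b α (g i) y| ≤ ‖Phi b α g x - Phi b α g y‖ := by
  have := PiLp.norm_apply_le (Phi b α g x - Phi b α g y) i
  simpa [Phi] using this

lemma norm_le_sum {b : ℕ} {α : ℝ} {m : ℕ} (g : Fin m → ℝ → ℝ) (x y : ℝ) :
    ‖Phi b α g x - Phi b α g y‖ ≤ ∑ i, |W b α (g i) x - W b α (g i) y| := by
  rw [EuclideanSpace.norm_eq]
  apply Real.sqrt_le_iff.mpr
  constructor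
  · exact Finset.sum_nonneg fun i _ => abs_nonneg _
  · have h := Finset.sum_sq_le_sq_sum_of_nonneg (s := Finset.univ)
      (f := fun i : Fin m => |W b α (g i) x - W b α (g i) y|) (fun i _ => abs_nonneg _)
    simpa [Phi] using h

/-- **Bi-Hölder Weierstrass embeddings of the circle.**  For every integer `b ≥ 2` and every
`α ∈ (0,1)` there are `m ≥ 1` and `1`-periodic Lipschitz functions `g_1, …, g_m` such that the
Weierstrass embedding `Φ = (W_{g_1}, …, W_{g_m})` of the circle `ℝ/ℤ` is `α`-bi-Hölder. -/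
theorem result (b : ℕ) (hb : 2 ≤ b) (α : ℝ) (h0 : 0 < α) (h1 : α < 1) :
    ∃ (m : ℕ) (g : Fin m → ℝ → ℝ), 1 ≤ m ∧ (∀ i, Function.Periodic (g i) 1) ∧
      (∀ i, ∃ K : NNReal, LipschitzWith K (g i)) ∧
      ∃ C : ℝ, 1 ≤ C ∧ ∀ x y : ℝ,
        C⁻¹ * dist (x : UnitAddCircle) (y : UnitAddCircle) ^ α ≤
            ‖Phi b α g x - Phi b α g y‖ ∧
        ‖Phi b α g x - Phi b α g y‖ ≤
            C * dist (x : UnitAddCircle) (y : UnitAddCircle) ^ α := by
  have hb' : (2 : ℝ) ≤ b := by exact_mod_cast hb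
  have hβ : 0 < (b : ℝ) ^ (-α) := beta_pos hb α
  have hβ1 : (b : ℝ) ^ (-α) < 1 := beta_lt_one hb h0
  have hinv1 : (b : ℝ)⁻¹ < 1 := inv_lt_one_of_one_lt₀ (by linarith)
  have hinv0 : (0 : ℝ) < (b : ℝ)⁻¹ := by positivity
  -- choice of `n`
  obtain ⟨n, hn⟩ : ∃ n : ℕ, 1 + ((b : ℝ) * (b : ℝ) ^ (-α)) / ((b : ℝ) * (b : ℝ) ^ (-α) - 1) +
      (b : ℝ) ^ (-α) / (1 - (b : ℝ) ^ (-α)) ≤ (((b : ℝ) ^ (-α)) ^ n)⁻¹ := by
    obtain ⟨n, hn⟩ := pow_unbounded_of_one_lt
      (1 + ((b : ℝ) * (b : ℝ) ^ (-α)) / ((b : ℝ) * (b : ℝ) ^ (-α) - 1) +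
      (b : ℝ) ^ (-α) / (1 - (b : ℝ) ^ (-α))) (one_lt_inv₀ hβ |>.mpr hβ1)
    refine ⟨n, ?_⟩
    rw [← inv_pow]
    exact hn.le
  set M : ℕ := 2 * b ^ (n + 1) with hM
  have hM2 : 2 ≤ M := by
    have : 1 ≤ b ^ (n + 1) := Nat.one_le_pow _ _ (by omega)
    omega
  have hM1 : 1 ≤ M := by omega
  refine ⟨M + 2, fam b α M, by omega, fam_periodic b α M, fam_lip hb α hM1, ?_⟩
  -- upper bounds
  have hup : ∀ i : Fin (M + 2), ∃ C : ℝ, 0 ≤ C ∧ ∀ x y : ℝ,
      |W b α (fam b α M i) x - W b α (fam b α M i) y| ≤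
        C * dist (x : UnitAddCircle) (y : UnitAddCircle) ^ α := by
    intro i
    obtain ⟨K, hK⟩ := fam_lip hb α hM1 i
    exact W_upper hb h0 h1 (fam_periodic b α M i) hK
  choose C hC0 hC using hup
  set δ : ℝ := ((b : ℝ)⁻¹) ^ n with hδ
  have hδ0 : 0 < δ := pow_pos hinv0 n
  have hδ1 : δ ≤ 1 := pow_le_one₀ hinv0.le hinv1.le
  -- lower bound
  have hlow : ∀ x y : ℝ, δ * dist (x : UnitAddCircle) (y : UnitAddCircle) ^ α ≤
      ‖Phi b α (fam b α M) x - Phi b α (fam b α M) y‖ := by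
    intro x y
    obtain ⟨k, hk⟩ := exists_rep x y
    have hPhi : Phi b α (fam b α M) y = Phi b α (fam b α M) (y + k) := by
      unfold Phi
      congr 1
      funext i
      rw [W_add_int (fam_periodic b α M i)]
    rw [hPhi, ← hk]
    have hhalf : |x - (y + k)| ≤ 1 / 2 := by
      rw [hk]; exact dist_le_half x y
    set z : ℝ := y + k
    have hrα1 : |x - z| ^ α ≤ 1 :=
      Real.rpow_le_one (abs_nonneg _) (by linarith) h0.le
    rcases le_total δ |x - z| with hlarge | hsmall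
    · -- large distances
      rcases cos_or_sin hδ0.le hlarge hhalf with h | h
      · have h2 := coord_le_norm (b := b) (α := α) (fam b α M) x z ⟨M, by omega⟩
        have h3 : fam b α M ⟨M, by omega⟩ = gcos b α := by simp [fam]
        rw [h3, W_gcos hb h0, W_gcos hb h0] at h2
        nlinarith
      · have h2 := coord_le_norm (b := b) (α := α) (fam b α M) x z ⟨M + 1, by omega⟩
        have h3 : fam b α M ⟨M + 1, by omega⟩ = gsin b α := by simp [fam]
        rw [h3, W_gsin hb h0, W_gsin hb h0] at h2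
        nlinarith
    · -- small distances
      have hfam : ∀ j : Fin M, fam b α M ⟨j, by omega⟩ = saw M ((j : ℕ) / (M : ℝ)) := by
        intro j
        simp [fam, j.isLt]
      have hle : δ * |x - z| ^ α ≤ |x - z| ^ α := by
        have : 0 ≤ |x - z| ^ α := Real.rpow_nonneg (abs_nonneg _) α
        nlinarith
      rcases lt_trichotomy x z with hxz | hxz | hxz
      · have hr : |x - z| = z - x := by rw [abs_sub_comm, abs_of_pos (by linarith)]
        obtain ⟨j, hj⟩ := lower_small hb h0 h1 hn hM hxz (by rw [← hr]; exact hsmall)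
        have h2 := coord_le_norm (b := b) (α := α) (fam b α M) x z ⟨j, by omega⟩
        rw [hfam j, abs_sub_comm] at h2
        rw [← hr] at hj
        linarith
      · rw [hxz]
        simp [Real.zero_rpow h0.ne']
      · have hr : |x - z| = x - z := abs_of_pos (by linarith)
        obtain ⟨j, hj⟩ := lower_small hb h0 h1 hn hM hxz (by rw [← hr]; exact hsmall)
        have h2 := coord_le_norm (b := b) (α := α) (fam b α M) x z ⟨j, by omega⟩
        rw [hfam j] at h2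
        rw [← hr] at hj
        linarith
  -- conclusion
  have hsumC : 0 ≤ ∑ i, C i := Finset.sum_nonneg fun i _ => hC0 i
  refine ⟨δ⁻¹ + ∑ i, C i, ?_, ?_⟩
  · have : 1 ≤ δ⁻¹ := (one_le_inv₀ hδ0).mpr hδ1
    linarith
  · intro x y
    have hd : 0 ≤ dist (x : UnitAddCircle) (y : UnitAddCircle) ^ α :=
      Real.rpow_nonneg dist_nonneg α
    have hδinv : 0 < δ⁻¹ := inv_pos.mpr hδ0
    constructor
    · refine le_trans ?_ (hlow x y)
      apply mul_le_mul_of_nonneg_right _ hd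
      rw [inv_le_comm₀ (by linarith) hδ0]
      linarith
    · refine (norm_le_sum (b := b) (α := α) (fam b α M) x y).trans ?_
      calc ∑ i, |W b α (fam b α M i) x - W b α (fam b α M i) y|
          ≤ ∑ i, C i * dist (x : UnitAddCircle) (y : UnitAddCircle) ^ α :=
            Finset.sum_le_sum fun i _ => hC i x y
        _ = (∑ i, C i) * dist (x : UnitAddCircle) (y : UnitAddCircle) ^ α := by
            rw [Finset.sum_mul]
        _ ≤ _ := by
            apply mul_le_mul_of_nonneg_right _ hd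
            linarith

end Pool.Agent.Results.MP_0a5dd0_an.BiHolderEmbedding
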